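import Pool.Agent.Lib.T3B.Perm

/-!
# Arbitrary bases of the free group

(helper14, problem MP_6b13af_al)
-/

set_option autoImplicit false

open scoped Classical

namespace Pool.Agent.T3B

open FreeGroup
open Pool.Agent.T3R

/-- the homomorphisms `F → ℤ / 2` that kill the letter `x` -/
def Lc (c : ZMod 2 × ZMod 2 × ZMod 2) : F4 →* Multiplicative (ZMod 2) :=
  FreeGroup.lift ![1, Multiplicative.ofAdd c.1, Multiplicative.ofAdd c.2.1,
    Multiplicative.ofAdd c.2.2]

theorem Lc0 (c : ZMod 2 × ZMod 2 × ZMod 2) : Lc c (of 0) = 1 := by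
  rw [Lc, FreeGroup.lift_apply_of]; rfl
theorem Lc1 (c : ZMod 2 × ZMod 2 × ZMod 2) : Lc c (of 1) = Multiplicative.ofAdd c.1 := by
  rw [Lc, FreeGroup.lift_apply_of]; rfl
theorem Lc2 (c : ZMod 2 × ZMod 2 × ZMod 2) : Lc c (of 2) = Multiplicative.ofAdd c.2.1 := by
  rw [Lc, FreeGroup.lift_apply_of]; rfl
theorem Lc3 (c : ZMod 2 × ZMod 2 × ZMod 2) : Lc c (of 3) = Multiplicative.ofAdd c.2.2 := by
  rw [Lc, FreeGroup.lift_apply_of]; rfl

theorem Lc_sub (c c' : ZMod 2 × ZMod 2 × ZMod 2) : Lc (c - c') = Lc c / Lc c' := by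
  refine FreeGroup.ext_hom _ _ fun i => ?_
  rw [MonoidHom.div_apply]
  fin_cases i
  · show Lc (c - c') (of 0) = Lc c (of 0) / Lc c' (of 0)
    rw [Lc0, Lc0, Lc0, div_one]
  · show Lc (c - c') (of 1) = Lc c (of 1) / Lc c' (of 1)
    rw [Lc1, Lc1, Lc1]; rfl
  · show Lc (c - c') (of 2) = Lc c (of 2) / Lc c' (of 2)
    rw [Lc2, Lc2, Lc2]; rfl
  · show Lc (c - c') (of 3) = Lc c (of 3) / Lc c' (of 3)
    rw [Lc3, Lc3, Lc3]; rfl

theorem sq_one : ∀ q : ZMod 2, (Multiplicative.ofAdd q) ^ 2 = 1 := by decide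

theorem Lc_RR (c : ZMod 2 × ZMod 2 × ZMod 2) : ∀ g ∈ RR, Lc c g = 1 := by
  intro g hg
  have h1 : RR ≤ (Lc c).ker := by
    refine Subgroup.normalClosure_le_normal ?_
    rintro ρ (rfl | rfl | rfl | rfl)
    · show Lc c (of 0 ^ 3) = 1
      rw [map_pow, Lc0, one_pow]
    · show Lc c (of 2 ^ 2) = 1
      rw [map_pow, Lc2, sq_one]
    · show Lc c cxy = 1
      rw [cxy, _root_.map_mul, _root_.map_mul, _root_.map_mul, _root_.map_inv, _root_.map_inv,
        mul_comm (Lc c (of 0)), mul_inv_cancel_right, mul_inv_cancel]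
    · show Lc c czt = 1
      rw [czt, _root_.map_mul, _root_.map_mul, _root_.map_mul, _root_.map_inv, _root_.map_inv,
        mul_comm (Lc c (of 2)), mul_inv_cancel_right, mul_inv_cancel]
  exact h1 hg

theorem exists_others : ∀ i j : Fin 4, i ≠ j →
    ∃ k l : Fin 4, ∀ m : Fin 4, m = i ∨ m = j ∨ m = k ∨ m = l := by decide

/-- `R` does not contain two elements of a basis of `F`: the largest abelian quotient of
exponent two of `F / R` has rank three. -/
theorem not_both (α : F4 ≃* F4) (i j : Fin 4) (hij : i ≠ j) (hi : α (of i) ∈ RR)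
    (hj : α (of j) ∈ RR) : False := by
  obtain ⟨k, l, hkl⟩ := exists_others i j hij
  obtain ⟨c, c', hne, hc⟩ := Fintype.exists_ne_map_eq_of_card_lt
    (fun c : ZMod 2 × ZMod 2 × ZMod 2 => (Lc c (α (of k)), Lc c (α (of l)))) (by
      simp only [Fintype.card_prod, ZMod.card, Fintype.card_multiplicative]
      norm_num)
  have hc1 : Lc c (α (of k)) = Lc c' (α (of k)) := congrArg Prod.fst hc
  have hc2 : Lc c (α (of l)) = Lc c' (α (of l)) := congrArg Prod.snd hc
  have h1 : (Lc (c - c')).comp α.toMonoidHom = 1 := by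
    refine FreeGroup.ext_hom _ _ fun m => ?_
    show Lc (c - c') (α (of m)) = 1
    rcases hkl m with rfl | rfl | rfl | rfl
    · exact Lc_RR _ _ hi
    · exact Lc_RR _ _ hj
    · rw [Lc_sub, MonoidHom.div_apply, hc1, div_self']
    · rw [Lc_sub, MonoidHom.div_apply, hc2, div_self']
  have h2 : ∀ g : F4, Lc (c - c') g = 1 := by
    intro g
    have h3 := DFunLike.congr_fun h1 (α.symm g)
    have h4 : Lc (c - c') (α (α.symm g)) = 1 := h3
    rwa [MulEquiv.apply_symm_apply] at h4
  have e1 := h2 (of 1)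
  have e2 := h2 (of 2)
  have e3 := h2 (of 3)
  rw [Lc1] at e1
  rw [Lc2] at e2
  rw [Lc3] at e3
  have f1 : (c - c').1 = 0 := e1
  have f2 : (c - c').2.1 = 0 := e2
  have f3 : (c - c').2.2 = 0 := e3
  exact hne (sub_eq_zero.1 (Prod.ext f1 (Prod.ext f2 f3)))

/-! ### transport along an automorphism -/

theorem al_nc (α : F4 ≃* F4) (a b c : F4)
    (h : Subgroup.normalClosure ({a, b, c} : Set F4) = RR.comap α.toMonoidHom) :
    Subgroup.normalClosure ({α a, α b, α c} : Set F4) = RR := by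
  have hs : Function.Surjective α.toMonoidHom := α.surjective
  have h1 := congrArg (Subgroup.map α.toMonoidHom) h
  rw [Subgroup.map_comap_eq_self_of_surjective hs,
    Subgroup.map_normalClosure _ _ hs, Set.image_insert_eq, Set.image_pair] at h1
  exact h1

theorem al_nc' (α : F4 ≃* F4) (a b c : F4)
    (h : Subgroup.normalClosure ({a, b, c} : Set F4) = RR) :
    Subgroup.normalClosure ({α.symm a, α.symm b, α.symm c} : Set F4) =
      RR.comap α.toMonoidHom := by
  have hs : Function.Surjective α.toMonoidHom := α.surjective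
  have h1 : (α.toMonoidHom '' ({α.symm a, α.symm b, α.symm c} : Set F4)) = {a, b, c} := by
    rw [Set.image_insert_eq, Set.image_pair]
    show ({α (α.symm a), α (α.symm b), α (α.symm c)} : Set F4) = _
    rw [MulEquiv.apply_symm_apply, MulEquiv.apply_symm_apply, MulEquiv.apply_symm_apply]
  rw [← h, ← h1, ← Subgroup.map_normalClosure _ _ hs,
    Subgroup.comap_map_eq_self_of_injective (show Function.Injective α.toMonoidHom from
      α.injective)]

theorem al_wd (α : F4 ≃* F4) (S : Set (Fin 4)) (g : F4) (hg : g ∈ Wd S) :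
    α g ∈ Subgroup.closure ((fun i => α (of i)) '' S) := by
  refine wd_map α.toMonoidHom S (Subgroup.closure ((fun i => α (of i)) '' S))
    (fun i hi => ?_) g hg
  exact Subgroup.subset_closure (Set.mem_image_of_mem (fun i => α (of i)) hi)

theorem al_wd' (α : F4 ≃* F4) (S : Set (Fin 4)) (g : F4)
    (hg : g ∈ Subgroup.closure ((fun i => α (of i)) '' S)) : α.symm g ∈ Wd S := by
  have h1 : Subgroup.closure ((fun i => α (of i)) '' S) ≤
      (Wd S).comap α.symm.toMonoidHom := by
    rw [Subgroup.closure_le]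
    rintro _ ⟨i, hi, rfl⟩
    show α.symm (α (of i)) ∈ Wd S
    rw [MulEquiv.symm_apply_apply, Wd]
    exact Subgroup.subset_closure ⟨i, hi, rfl⟩
  exact h1 hg

theorem compl_three : ∀ p : Fin 4, ∃ i j k : Fin 4, i ≠ j ∧ ∀ m : Fin 4, m ≠ p →
    m = i ∨ m = j ∨ m = k := by decide

theorem compl_three' (p : Fin 4) : ∃ i j k : Fin 4, i ≠ j ∧ {m : Fin 4 | m ≠ p} ⊆ {i, j, k} := by
  obtain ⟨i, j, k, h1, h2⟩ := compl_three p
  exact ⟨i, j, k, h1, fun m hm => h2 m hm⟩

/-- the properties used, for an arbitrary basis -/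
theorem gd_basis (α : F4 ≃* F4)
    (K2 : ∀ a b c u v : F4, Subgroup.normalClosure ({a, b, c} : Set F4) = RR →
      a ∈ Subgroup.closure ({u, v} : Set F4) → b ∈ Subgroup.closure ({u, v} : Set F4) →
      u ∈ RR ∧ v ∈ RR)
    (K3 : ∀ a b c u v w : F4, Subgroup.normalClosure ({a, b, c} : Set F4) = RR →
      a ∈ Subgroup.closure ({u, v, w} : Set F4) → b ∈ Subgroup.closure ({u, v, w} : Set F4) →
      c ∈ Subgroup.closure ({u, v, w} : Set F4) → u ∈ RR ∧ v ∈ RR ∧ w ∈ RR) :
    Gd (RR.comap α.toMonoidHom) where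
  nor := (inferInstance : RR.Normal).comap _
  pow s m hm b c h := by
    have h1 := al_nc α _ _ _ h
    rw [map_pow] at h1
    exact pow_mem_RR _ m hm _ _ h1
  two i j hij a b c ha hb h := by
    have h1 := al_nc α _ _ _ h
    have ha' := al_wd α _ a ha
    have hb' := al_wd α _ b hb
    rw [Set.image_pair] at ha' hb'
    obtain ⟨h2, h3⟩ := K2 _ _ _ _ _ h1 ha' hb'
    exact not_both α i j hij h2 h3
  omt p a b c ha hb hc h := by
    have h1 := al_nc α _ _ _ h
    obtain ⟨i, j, k, hij, hs⟩ := compl_three' p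
    have ha' := al_wd α _ a (wd_mono hs ha)
    have hb' := al_wd α _ b (wd_mono hs hb)
    have hc' := al_wd α _ c (wd_mono hs hc)
    rw [Set.image_insert_eq, Set.image_pair] at ha' hb' hc'
    obtain ⟨h2, h3, _⟩ := K3 _ _ _ _ _ _ h1 ha' hb' hc'
    exact not_both α i j hij h2 h3
  tor := by
    refine ⟨α.symm (of 0), ?_, 3, by norm_num, ?_⟩
    · intro h
      have h1 : α (α.symm (of 0)) ∈ RR := h
      rw [MulEquiv.apply_symm_apply] at h1
      exact x_not_mem h1
    · show α (α.symm (of 0) ^ 3) ∈ RR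
      rw [map_pow, MulEquiv.apply_symm_apply]
      exact x3_mem

/-- a relator that is conjugate to a power of an element of a basis -/
theorem Gd.zp {N : Subgroup F4} (hN : Gd N) (p : Fin 4) (a b c : F4) (ha : a ∈ Wd {p})
    (h : Subgroup.normalClosure ({a, b, c} : Set F4) = N) : of p ∈ N := by
  have h1 : a ∈ Subgroup.zpowers (of p : F4) := by
    rw [Wd, Set.image_singleton] at ha
    rwa [Subgroup.zpowers_eq_closure]
  obtain ⟨k, rfl⟩ := Subgroup.mem_zpowers_iff.1 h1
  rcases lt_trichotomy k 0 with hk | hk | hk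
  · have h2 : (of p : F4) ^ k = (of p)⁻¹ ^ (-k).toNat := by
      rw [← zpow_natCast, Int.toNat_of_nonneg (by omega), inv_zpow', neg_neg]
    rw [h2] at h
    have h3 := hN.pow _ _ (by omega) _ _ h
    exact (Subgroup.inv_mem_iff _).1 h3
  · rw [hk, zpow_zero] at h
    exact absurd h (hN.one _ _)
  · have h2 : (of p : F4) ^ k = (of p) ^ k.toNat := by
      rw [← zpow_natCast, Int.toNat_of_nonneg (by omega)]
    rw [h2] at h
    exact hN.pow _ _ (by omega) _ _ h

end Pool.Agent.T3B
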