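import Pool.Agent.Lib.T3R.Tor

/-!
# Triples with two special relators, for a normal subgroup with the properties of `RR`

(helper14, problem MP_6b13af_al)
-/

set_option autoImplicit false

open scoped Classical

namespace Pool.Agent.T3B

open FreeGroup
open Pool.Agent.T3R
open Pool.Agent.LTree (NPow GTree)
open Pool.Agent.LOTI (LI LI_free)

/-- the properties of `RR` (invariant under permutations of the letters) -/
structure Gd (N : Subgroup F4) : Prop where
  nor : N.Normal
  pow : ∀ (s : F4) (m : ℕ), 1 ≤ m → ∀ b c : F4,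
    Subgroup.normalClosure ({s ^ m, b, c} : Set F4) = N → s ∈ N
  two : ∀ i j : Fin 4, i ≠ j → ∀ a b c : F4, a ∈ Wd {i, j} → b ∈ Wd {i, j} →
    Subgroup.normalClosure ({a, b, c} : Set F4) ≠ N
  omt : ∀ (p : Fin 4) (a b c : F4), a ∈ Wd {i | i ≠ p} → b ∈ Wd {i | i ≠ p} →
    c ∈ Wd {i | i ≠ p} → Subgroup.normalClosure ({a, b, c} : Set F4) ≠ N
  tor : ∃ g : F4, g ∉ N ∧ ∃ n : ℕ, 1 ≤ n ∧ g ^ n ∈ N

/-! ### generalities on quotients -/

theorem qq {G : Type} [Group G] (S : Set G) (s g : G) (N : Subgroup G) (hN : N.Normal)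
    (hS : ∀ x ∈ S, x ∈ N) (hs : s ∈ N)
    (h : (QuotientGroup.mk g : G ⧸ Subgroup.normalClosure S) ∈
      Subgroup.normalClosure ({QuotientGroup.mk s} : Set (G ⧸ Subgroup.normalClosure S))) :
    g ∈ N := by
  obtain ⟨ψ, hψ⟩ := exists_lift S (QuotientGroup.mk' N) (by
    intro x hx
    exact (QuotientGroup.eq_one_iff x).2 (hS x hx))
  have h1 : Subgroup.normalClosure
      ({QuotientGroup.mk s} : Set (G ⧸ Subgroup.normalClosure S)) ≤ ψ.ker := by
    refine Subgroup.normalClosure_le_normal ?_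
    rintro _ rfl
    show ψ (QuotientGroup.mk s) = 1
    rw [hψ]
    exact (QuotientGroup.eq_one_iff s).2 hs
  have h2 := h1 h
  rw [MonoidHom.mem_ker, hψ] at h2
  exact (QuotientGroup.eq_one_iff g).1 h2

theorem repl_gen (N : Subgroup F4) (U V : Set F4) (c p g : F4)
    (h : Subgroup.normalClosure (insert c U) = N) (hV : V ⊆ U)
    (hc : c⁻¹ * (g * p * g⁻¹) ∈ Subgroup.normalClosure V) :
    Subgroup.normalClosure (insert p U) = N := by
  have hVU : Subgroup.normalClosure V ≤ Subgroup.normalClosure U :=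
    Subgroup.normalClosure_mono hV
  apply le_antisymm
  · rw [← h]
    refine Subgroup.normalClosure_le_normal ?_
    intro x hx
    rcases Set.mem_insert_iff.1 hx with rfl | hx
    · have h1 : c ∈ Subgroup.normalClosure (insert c U) :=
        Subgroup.subset_normalClosure (Set.mem_insert _ _)
      have h2 : c⁻¹ * (g * x * g⁻¹) ∈ Subgroup.normalClosure (insert c U) :=
        Subgroup.normalClosure_mono (Set.subset_insert _ _) (hVU hc)
      have h3 := Subgroup.mul_mem _ h1 h2
      rw [mul_inv_cancel_left] at h3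
      have h4 := Subgroup.Normal.conj_mem Subgroup.normalClosure_normal _ h3 g⁻¹
      have h5 : g⁻¹ * (g * x * g⁻¹) * g⁻¹⁻¹ = x := by group
      rwa [h5] at h4
    · exact Subgroup.subset_normalClosure (Set.mem_insert_of_mem _ hx)
  · rw [← h]
    refine Subgroup.normalClosure_le_normal ?_
    intro x hx
    rcases Set.mem_insert_iff.1 hx with rfl | hx
    · have h1 : g * p * g⁻¹ ∈ Subgroup.normalClosure (insert p U) :=
        Subgroup.Normal.conj_mem Subgroup.normalClosure_normal _
          (Subgroup.subset_normalClosure (Set.mem_insert _ _)) g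
      have h2 : x⁻¹ * (g * p * g⁻¹) ∈ Subgroup.normalClosure (insert p U) :=
        Subgroup.normalClosure_mono (Set.subset_insert _ _) (hVU hc)
      have h3 := Subgroup.mul_mem _ h1 (Subgroup.inv_mem _ h2)
      have h4 : g * p * g⁻¹ * (x⁻¹ * (g * p * g⁻¹))⁻¹ = x := by group
      rwa [h4] at h3
    · exact Subgroup.subset_normalClosure (Set.mem_insert_of_mem _ hx)

theorem repl_root {N : Subgroup F4} (hN : Gd N) (v b c : F4) (q : ℕ) (hq : 1 ≤ q)
    (h : Subgroup.normalClosure ({v ^ q, b, c} : Set F4) = N) :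
    v ∈ N ∧ Subgroup.normalClosure ({v, b, c} : Set F4) = N := by
  have hv := hN.pow v q hq b c h
  refine ⟨hv, ?_⟩
  haveI := hN.nor
  apply le_antisymm
  · refine Subgroup.normalClosure_le_normal ?_
    intro x hx
    rcases hx with hx | hx | hx
    · rw [hx]; exact hv
    · rw [hx, ← h]
      exact Subgroup.subset_normalClosure (by simp)
    · have hx' : x = c := hx
      rw [hx', ← h]
      exact Subgroup.subset_normalClosure (by simp)
  · rw [← h]
    refine Subgroup.normalClosure_le_normal ?_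
    intro x hx
    rcases hx with hx | hx | hx
    · rw [hx]
      exact Subgroup.pow_mem _ (Subgroup.subset_normalClosure (by simp)) q
    · rw [hx]
      exact Subgroup.subset_normalClosure (by simp)
    · have hx' : x = c := hx
      rw [hx']
      exact Subgroup.subset_normalClosure (by simp)

/-- from the double quotient to the quotient -/
theorem LI_qq (a b : F4) (h : LI ((F4 ⧸ Subgroup.normalClosure ({a} : Set F4)) ⧸
      Subgroup.normalClosure ({QuotientGroup.mk b} :
        Set (F4 ⧸ Subgroup.normalClosure ({a} : Set F4))))) :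
    LI (F4 ⧸ Subgroup.normalClosure ({a, b} : Set F4)) := by
  obtain ⟨φ, hφ⟩ := exists_lift ({a, b} : Set F4)
    ((QuotientGroup.mk' (Subgroup.normalClosure ({QuotientGroup.mk b} :
        Set (F4 ⧸ Subgroup.normalClosure ({a} : Set F4))))).comp
      (QuotientGroup.mk' (Subgroup.normalClosure ({a} : Set F4)))) (by
      intro x hx
      rcases hx with hx | hx
      · show (QuotientGroup.mk (QuotientGroup.mk x : F4 ⧸ Subgroup.normalClosure ({a} : Set F4)) :
          _ ⧸ _) = 1
        have h2 : (QuotientGroup.mk x : F4 ⧸ Subgroup.normalClosure ({a} : Set F4)) = 1 :=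
          (QuotientGroup.eq_one_iff _).2 (Subgroup.subset_normalClosure (by rw [hx]; simp))
        rw [h2]
        rfl
      · have hx' : x = b := hx
        rw [hx']
        exact (QuotientGroup.eq_one_iff _).2 (Subgroup.subset_normalClosure rfl))
  refine LI.of_injective φ ?_ h
  rw [injective_iff_map_eq_one]
  intro g hg
  obtain ⟨g', rfl⟩ := QuotientGroup.mk_surjective g
  rw [hφ] at hg
  have h2 := (QuotientGroup.eq_one_iff _).1 hg
  refine (QuotientGroup.eq_one_iff _).2 ?_
  exact qq ({a} : Set F4) b g' (Subgroup.normalClosure {a, b}) Subgroup.normalClosure_normal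
    (by rintro x rfl; exact Subgroup.subset_normalClosure (by simp))
    (Subgroup.subset_normalClosure (by simp)) h2

/-- the contradiction at the end -/
theorem final_aux {N : Subgroup F4} (hN : Gd N) (w v : F4) (hw : w ∈ N) (hv : v ∈ N) (c : F4)
    (h : Subgroup.normalClosure ({c, w, v} : Set F4) = N)
    (hLI : LI (F4 ⧸ Subgroup.normalClosure ({w, v} : Set F4)))
    (T : GTree (F4 ⧸ Subgroup.normalClosure ({w, v} : Set F4))) (hT : T.Has ⊥)
    (hell : ¬ T.Ell (QuotientGroup.mk c)) : False := by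
  haveI := hN.nor
  obtain ⟨s, q, hq, hs, hsn, hse⟩ := exists_root_tree T _ hell
  obtain ⟨s', rfl⟩ := QuotientGroup.mk_surjective s
  have h1 : c⁻¹ * (1 * s' ^ q * 1⁻¹) ∈ Subgroup.normalClosure ({w, v} : Set F4) := by
    rw [one_mul, inv_one, mul_one]
    exact QuotientGroup.eq.1 hs
  have h2 : Subgroup.normalClosure ({s' ^ q, w, v} : Set F4) = N :=
    repl_gen N {w, v} {w, v} c (s' ^ q) 1 h le_rfl h1
  obtain ⟨hs', h3⟩ := repl_root hN s' w v q hq h2
  have hL := (Pool.Agent.LTree.ft hLI T hT _ hse hsn).1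
  obtain ⟨g, hg, n, hn, hgn⟩ := hN.tor
  have h4 : (QuotientGroup.mk (QuotientGroup.mk g :
      F4 ⧸ Subgroup.normalClosure ({w, v} : Set F4)) : (F4 ⧸ Subgroup.normalClosure
        ({w, v} : Set F4)) ⧸ Subgroup.normalClosure ({QuotientGroup.mk s'} :
        Set (F4 ⧸ Subgroup.normalClosure ({w, v} : Set F4)))) ^ n = 1 := by
    have h5 : N ≤ (Subgroup.normalClosure ({QuotientGroup.mk s'} :
        Set (F4 ⧸ Subgroup.normalClosure ({w, v} : Set F4)))).comap (QuotientGroup.mk' _) := by
      rw [← h3]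
      refine Subgroup.normalClosure_le_normal ?_
      intro x hx
      show (QuotientGroup.mk x : F4 ⧸ Subgroup.normalClosure ({w, v} : Set F4)) ∈
        Subgroup.normalClosure ({QuotientGroup.mk s'} :
        Set (F4 ⧸ Subgroup.normalClosure ({w, v} : Set F4)))
      rcases hx with hx | hx | hx
      · rw [hx]
        exact Subgroup.subset_normalClosure (Set.mem_singleton _)
      · have h6 : (QuotientGroup.mk x : F4 ⧸ Subgroup.normalClosure ({w, v} : Set F4)) = 1 :=
          (QuotientGroup.eq_one_iff _).2 (Subgroup.subset_normalClosure (by rw [hx]; simp))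
        rw [h6]
        exact Subgroup.one_mem _
      · have hx' : x = v := hx
        have h6 : (QuotientGroup.mk x : F4 ⧸ Subgroup.normalClosure ({w, v} : Set F4)) = 1 :=
          (QuotientGroup.eq_one_iff _).2 (Subgroup.subset_normalClosure (by rw [hx']; simp))
        rw [h6]
        exact Subgroup.one_mem _
    exact (QuotientGroup.eq_one_iff _).2 (h5 hgn)
  have h5 := Pool.Agent.LTree.torsion_free hL _ n hn h4
  apply hg
  refine qq ({w, v} : Set F4) s' g N hN.nor ?_ hs' ((QuotientGroup.eq_one_iff _).1 h5)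
  intro x hx
  rcases hx with hx | hx
  · rw [hx]; exact hw
  · have hx' : x = v := hx
    rw [hx']; exact hv

/-! ### one relator in `x, y` -/

theorem npow_conj_zpow (g : F4) (i : Fin 4) (k : ℤ) (h : NPow (g * of i ^ k * g⁻¹)) :
    k = 1 ∨ k = -1 := by
  rcases lt_trichotomy k 0 with hk | hk | hk
  · right
    by_contra hne
    refine h (g * (of i)⁻¹ * g⁻¹) (-k).toNat (by omega) ?_
    rw [conj_pow]
    have h1 : (of i)⁻¹ ^ (-k).toNat = (of i : F4) ^ k := by
      rw [← zpow_natCast, Int.toNat_of_nonneg (by omega), inv_zpow', neg_neg]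
    rw [h1]
  · exfalso
    rw [hk, zpow_zero, mul_one, mul_inv_cancel] at h
    exact npow_ne_one _ h rfl
  · left
    by_contra hne
    refine h (g * (of i) * g⁻¹) k.toNat (by omega) ?_
    rw [conj_pow]
    have h1 : (of i) ^ k.toNat = (of i : F4) ^ k := by
      rw [← zpow_natCast, Int.toNat_of_nonneg (by omega)]
    rw [h1]

/-- a word in `x, y`, not a proper power, conjugate to a word without `y` is conjugate to the
letter `x` or its inverse -/
theorem conj_letter (w' : FreeGroup (Fin 2))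
    (hn : NPow (iA w')) (g : F4)
    (p : FreeGroup {i : Fin 4 // i ≠ 1}) (h : iA w' = g * Pool.Agent.Lib.MagH.omt 1 p * g⁻¹) :
    ∃ G : F4, iA w' = G * of 0 * G⁻¹ ∨ iA w' = G * (of 0)⁻¹ * G⁻¹ := by
  have h1 : iA w' = iA (rA g) * iA (rA (Pool.Agent.Lib.MagH.omt 1 p)) * (iA (rA g))⁻¹ := by
    have h2 := congrArg (fun u => iA (rA u)) h
    simp only [rA_iA, _root_.map_mul, _root_.map_inv] at h2
    exact h2
  have h2 : ∃ k : ℤ, iA (rA (Pool.Agent.Lib.MagH.omt 1 p)) = of 0 ^ k := by
    have h3 : (⊤ : Subgroup (FreeGroup {i : Fin 4 // i ≠ 1})) ≤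
        (Subgroup.zpowers (of 0 : F4)).comap ((iA.comp rA).comp (Pool.Agent.Lib.MagH.omt 1)) := by
      rw [← FreeGroup.closure_range_of, Subgroup.closure_le]
      rintro _ ⟨⟨i, hi⟩, rfl⟩
      show iA (rA (Pool.Agent.Lib.MagH.omt 1 (of ⟨i, hi⟩))) ∈ Subgroup.zpowers (of 0 : F4)
      rw [Pool.Agent.Lib.MagH.omt, FreeGroup.map.of]
      fin_cases i
      · show iA (rA (of 0)) ∈ _
        rw [rA, FreeGroup.lift_apply_of]
        show iA (of 0) ∈ _
        rw [iA, FreeGroup.lift_apply_of]
        exact Subgroup.mem_zpowers _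
      · exact absurd rfl hi
      · show iA (rA (of 2)) ∈ _
        rw [rA, FreeGroup.lift_apply_of]
        show iA 1 ∈ _
        rw [_root_.map_one]
        exact Subgroup.one_mem _
      · show iA (rA (of 3)) ∈ _
        rw [rA, FreeGroup.lift_apply_of]
        show iA 1 ∈ _
        rw [_root_.map_one]
        exact Subgroup.one_mem _
    obtain ⟨k, hk⟩ := Subgroup.mem_zpowers_iff.1 (h3 (Subgroup.mem_top p))
    exact ⟨k, hk.symm⟩
  obtain ⟨k, hk⟩ := h2
  rw [hk] at h1
  rw [h1] at hn
  refine ⟨iA (rA g), ?_⟩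
  rcases npow_conj_zpow _ _ _ hn with hk1 | hk1
  · left
    rw [h1, hk1, zpow_one]
  · right
    rw [h1, hk1, zpow_neg, zpow_one]

theorem LI_of_eq (S T : Set F4) (h : Subgroup.normalClosure S = Subgroup.normalClosure T)
    (hT : LI (F4 ⧸ Subgroup.normalClosure T)) : LI (F4 ⧸ Subgroup.normalClosure S) := by
  obtain ⟨φ, hφ⟩ := exists_lift S (QuotientGroup.mk' (Subgroup.normalClosure T)) (by
    intro s hs
    refine (QuotientGroup.eq_one_iff s).2 ?_
    rw [← h]
    exact Subgroup.subset_normalClosure hs)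
  refine LI.of_injective φ ?_ hT
  rw [injective_iff_map_eq_one]
  intro g hg
  obtain ⟨g', rfl⟩ := QuotientGroup.mk_surjective g
  rw [hφ] at hg
  have h1 : g' ∈ Subgroup.normalClosure T := (QuotientGroup.eq_one_iff g').1 hg
  rw [← h] at h1
  exact (QuotientGroup.eq_one_iff g').2 h1

/-- the homomorphism that kills the letter `x` -/
def kx : F4 →* F4 := FreeGroup.lift ![1, of 1, of 2, of 3]

theorem kx0 : kx (of 0) = 1 := by rw [kx, FreeGroup.lift_apply_of]; rfl
theorem kx1 : kx (of 1) = of 1 := by rw [kx, FreeGroup.lift_apply_of]; rfl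
theorem kx2 : kx (of 2) = of 2 := by rw [kx, FreeGroup.lift_apply_of]; rfl
theorem kx3 : kx (of 3) = of 3 := by rw [kx, FreeGroup.lift_apply_of]; rfl

theorem kx_mk : (QuotientGroup.mk' (Subgroup.normalClosure ({of 0} : Set F4))).comp kx =
    QuotientGroup.mk' (Subgroup.normalClosure ({of 0} : Set F4)) := by
  refine FreeGroup.ext_hom _ _ fun i => ?_
  fin_cases i
  · show QuotientGroup.mk' (Subgroup.normalClosure ({of 0} : Set F4)) (kx (of 0)) =
      QuotientGroup.mk' (Subgroup.normalClosure ({of 0} : Set F4)) (of 0)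
    rw [kx0, _root_.map_one]
    symm
    exact (QuotientGroup.eq_one_iff _).2 (Subgroup.subset_normalClosure (Set.mem_singleton _))
  · show QuotientGroup.mk' (Subgroup.normalClosure ({of 0} : Set F4)) (kx (of 1)) =
      QuotientGroup.mk' (Subgroup.normalClosure ({of 0} : Set F4)) (of 1)
    rw [kx1]
  · show QuotientGroup.mk' (Subgroup.normalClosure ({of 0} : Set F4)) (kx (of 2)) =
      QuotientGroup.mk' (Subgroup.normalClosure ({of 0} : Set F4)) (of 2)
    rw [kx2]
  · show QuotientGroup.mk' (Subgroup.normalClosure ({of 0} : Set F4)) (kx (of 3)) =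
      QuotientGroup.mk' (Subgroup.normalClosure ({of 0} : Set F4)) (of 3)
    rw [kx3]

/-- killing a letter -/
theorem LI_letter : LI (F4 ⧸ Subgroup.normalClosure ({of 0} : Set F4)) := by
  obtain ⟨φ, hφ⟩ := exists_lift ({of 0} : Set F4) kx (by
    intro s hs
    have hs' : s = of 0 := hs
    rw [hs', kx0])
  refine LI.of_injective φ ?_ (LI_free _)
  rw [injective_iff_map_eq_one]
  intro g hg
  obtain ⟨g', rfl⟩ := QuotientGroup.mk_surjective g
  rw [hφ] at hg
  have h1 : QuotientGroup.mk' (Subgroup.normalClosure ({of 0} : Set F4)) (kx g') =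
      QuotientGroup.mk' (Subgroup.normalClosure ({of 0} : Set F4)) g' :=
    DFunLike.congr_fun kx_mk g'
  rw [hg, _root_.map_one] at h1
  exact h1.symm

theorem nc_conj (G s : F4) : Subgroup.normalClosure ({G * s * G⁻¹} : Set F4) =
    Subgroup.normalClosure ({s} : Set F4) := by
  apply le_antisymm
  · refine Subgroup.normalClosure_le_normal ?_
    intro x hx
    have hx' : x = G * s * G⁻¹ := hx
    rw [hx']
    exact Subgroup.Normal.conj_mem Subgroup.normalClosure_normal _
      (Subgroup.subset_normalClosure (Set.mem_singleton _)) G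
  · refine Subgroup.normalClosure_le_normal ?_
    intro x hx
    have hx' : x = s := hx
    rw [hx']
    have h1 := Subgroup.Normal.conj_mem
      (Subgroup.normalClosure_normal (s := ({G * s * G⁻¹} : Set F4)))
      _ (Subgroup.subset_normalClosure (Set.mem_singleton _)) G⁻¹
    have h2 : G⁻¹ * (G * s * G⁻¹) * G⁻¹⁻¹ = s := by group
    rwa [h2] at h1

theorem nc_inv (s : F4) : Subgroup.normalClosure ({s⁻¹} : Set F4) =
    Subgroup.normalClosure ({s} : Set F4) := by
  apply le_antisymm
  · refine Subgroup.normalClosure_le_normal ?_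
    intro x hx
    have hx' : x = s⁻¹ := hx
    rw [hx']
    exact Subgroup.inv_mem _ (Subgroup.subset_normalClosure (Set.mem_singleton _))
  · refine Subgroup.normalClosure_le_normal ?_
    intro x hx
    have hx' : x = s := hx
    rw [hx']
    have h1 : s⁻¹ ∈ Subgroup.normalClosure ({s⁻¹} : Set F4) :=
      Subgroup.subset_normalClosure (Set.mem_singleton _)
    have h2 := Subgroup.inv_mem _ h1
    rwa [inv_inv] at h2

theorem LI_one' (w' : FreeGroup (Fin 2)) (hn : NPow (iA w')) :
    LI (F4 ⧸ Subgroup.normalClosure ({iA w'} : Set F4)) := by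
  by_cases hc : ∃ (g : F4) (p : FreeGroup {i : Fin 4 // i ≠ 1}),
      iA w' = g * Pool.Agent.Lib.MagH.omt 1 p * g⁻¹
  · obtain ⟨g, p, h⟩ := hc
    obtain ⟨G, h1 | h1⟩ := conj_letter w' hn g p h
    · refine LI_of_eq _ _ ?_ LI_letter
      rw [h1, nc_conj]
    · refine LI_of_eq _ _ ?_ LI_letter
      rw [h1, nc_conj, nc_inv]
  · obtain ⟨T, hT, h1, _⟩ := Pool.Agent.Lib.MagH.split_tree
      (Pool.Agent.Lib.MagH.freeSplit_omt (1 : Fin 4))
    refine (Pool.Agent.LTree.ft (LI_free _) T hT (iA w') ?_ hn).1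
    rintro ⟨v, hv⟩
    obtain ⟨g, p, h2⟩ := h1 v _ hv
    exact hc ⟨g, p, h2⟩

/-! ### the disjoint case -/

theorem LI_two' (w' v' : FreeGroup (Fin 2)) (hn : NPow (iA w'))
    (hn2 : NPow (iB v')) : LI (QA w' v') := by
  have hB := LI_one' w' hn
  obtain ⟨j, hj, hs⟩ := freeSplitB w'
  obtain ⟨T, hT, h1, _⟩ := Pool.Agent.Lib.MagH.split_tree hs
  obtain ⟨κ, hκ⟩ := exists_lift ({iA w'} : Set F4) rB (by
    rintro _ rfl
    exact rB_iA w')
  have hκv : κ (QuotientGroup.mk (iB v')) = v' := by rw [hκ, rB_iB]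
  have hell : ¬ T.Ell (QuotientGroup.mk (iB v') : QB w') := by
    rintro ⟨u, hu⟩
    obtain ⟨g, p, h2⟩ := h1 u _ hu
    obtain ⟨p', rfl⟩ := QuotientGroup.mk_surjective p
    rw [hj] at h2
    have h3 := congrArg κ h2
    rw [hκv, _root_.map_mul, _root_.map_mul, _root_.map_inv, hκ, rB_iA, mul_one,
      mul_inv_cancel] at h3
    refine npow_ne_one _ hn2 ?_
    rw [h3, _root_.map_one]
  have hnp : NPow (QuotientGroup.mk (iB v') : QB w') := by
    refine npow_map κ _ ?_
    rw [hκv]
    exact npow_map iB _ hn2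
  exact LI_qq _ _ (Pool.Agent.LTree.ft hB T hT _ hell hnp).1

theorem iA_wd (w : FreeGroup (Fin 2)) : iA w ∈ Wd {0, 1} := by
  have h := iA_mem w
  rw [Wd, Set.image_pair]
  exact h

theorem iB_wd (w : FreeGroup (Fin 2)) : iB w ∈ Wd {2, 3} := by
  have h := iB_mem w
  rw [Wd, Set.image_pair]
  exact h

theorem disj {N : Subgroup F4} (hN : Gd N) (a' b' : FreeGroup (Fin 2)) (c : F4) :
    Subgroup.normalClosure ({iA a', iB b', c} : Set F4) ≠ N := by
  intro h
  haveI := hN.nor
  by_cases ha1 : a' = 1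
  · subst ha1
    rw [_root_.map_one, Set.insert_comm] at h
    exact hN.two 2 3 (by decide) _ _ _ (iB_wd b') (Subgroup.one_mem _) h
  by_cases hb1 : b' = 1
  · subst hb1
    rw [_root_.map_one] at h
    exact hN.two 0 1 (by decide) _ _ _ (iA_wd a') (Subgroup.one_mem _) h
  obtain ⟨w', m, hm, hw, hwn⟩ := Pool.Agent.Lib.MagH.exists_root a' ha1
  obtain ⟨v', k, hk, hv, hvn⟩ := Pool.Agent.Lib.MagH.exists_root b' hb1
  have hwn' : NPow (iA w') := npow_map rA _ (by rw [rA_iA]; exact hwn)
  have hvn' : NPow (iB v') := npow_map rB _ (by rw [rB_iB]; exact hvn)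
  rw [hw, hv, map_pow, map_pow] at h
  obtain ⟨hwN, h1⟩ := repl_root hN (iA w') _ _ m hm h
  rw [Set.insert_comm] at h1
  obtain ⟨hvN, h2⟩ := repl_root hN (iB v') _ _ k hk h1
  -- now the triple `v, w, c`
  have h3 : Subgroup.normalClosure ({c, iA w', iB v'} : Set F4) = N := by
    rw [← h2]
    congr 1
    ext x
    simp only [Set.mem_insert_iff, Set.mem_singleton_iff]
    tauto
  have hLI := LI_two' w' v' hwn' hvn'
  obtain ⟨j, k, hj, hk, hP⟩ := freeProdA w' v'
  obtain ⟨T, hT, h4, _⟩ := prod_tree hP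
  by_cases hell : T.Ell (QuotientGroup.mk c : QA w' v')
  · obtain ⟨u, hu⟩ := hell
    rcases h4 u _ hu with ⟨g, p, h5⟩ | ⟨g, p, h5⟩
    · obtain ⟨p', rfl⟩ := QuotientGroup.mk_surjective p
      obtain ⟨g', rfl⟩ := QuotientGroup.mk_surjective g
      rw [hj] at h5
      have h6 : Subgroup.normalClosure ({iA p', iA w', iB v'} : Set F4) = N :=
        repl_gen N _ _ c (iA p') g' h3 le_rfl (QuotientGroup.eq.1 h5)
      exact hN.two 0 1 (by decide) _ _ _ (iA_wd p') (iA_wd w') h6
    · obtain ⟨p', rfl⟩ := QuotientGroup.mk_surjective p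
      obtain ⟨g', rfl⟩ := QuotientGroup.mk_surjective g
      rw [hk] at h5
      have h6 : Subgroup.normalClosure ({iB p', iA w', iB v'} : Set F4) = N :=
        repl_gen N _ _ c (iB p') g' h3 le_rfl (QuotientGroup.eq.1 h5)
      rw [Set.pair_comm] at h6
      exact hN.two 2 3 (by decide) _ _ _ (iB_wd p') (iB_wd v') h6
  · exact final_aux hN _ _ hwN hvN c h3 hLI T hT hell

end Pool.Agent.T3B
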