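import Pool.Agent.Lib.T3B.Basis
import Pool.Agent.Lib.RG58.KForms

/-!
# The theorem for an arbitrary basis

The two facts on triples of normal generators in two or three elements are helper58's counting
theorem (`RG58.K_two`, `RG58.K_three`).

(helper14, problem MP_6b13af_al)
-/

set_option autoImplicit false

open scoped Classical

namespace Pool.Agent.T3B

open FreeGroup
open Pool.Agent.T3R

theorem RR_eq : RR = RG58.R := rfl

/-- the properties used hold for every basis -/
theorem gd_all (α : F4 ≃* F4) : Gd (RR.comap α.toMonoidHom) :=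
  gd_basis α
    (fun a b c u v h ha hb => RG58.K_two (a := a) (b := b) (c := c) (u := u) (v := v) h ha hb)
    (fun a b c u v w h ha hb hc =>
      RG58.K_three (a := a) (b := b) (c := c) (u := u) (v := v) (w := w) h ha hb hc)

theorem main_basis (α : F4 ≃* F4) (A B : Finset (Fin 4)) (hA : A.card ≤ 2) (a b c : F4)
    (h : Subgroup.normalClosure ({a, b, c} : Set F4) = RR)
    (ha : a ∈ Subgroup.closure ((fun i => α (of i)) '' (A : Set (Fin 4))))
    (hb : b ∈ Subgroup.closure ((fun i => α (of i)) '' (B : Set (Fin 4)))) :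
    A ∪ B = Finset.univ ∧
      ((A.card = 2 ∧ (A ∩ B).Nonempty) ∨ ∃ p, A = {p} ∧ α (of p) ∈ RR) := by
  have hN := gd_all α
  have h1 := al_nc' α a b c h
  have ha1 := al_wd' α _ _ ha
  have hb1 := al_wd' α _ _ hb
  have hu : A ∪ B = Finset.univ := by
    by_contra hne
    exact main hN A B hA (Or.inl hne) _ _ _ ha1 hb1 h1
  refine ⟨hu, ?_⟩
  have hsub : ∀ p, A ⊆ {p} → α (of p) ∈ RR := by
    intro p hp
    have h2 : (A : Set (Fin 4)) ⊆ {p} := by
      intro k hk
      exact Finset.mem_singleton.1 (hp hk)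
    exact hN.zp p _ _ _ (wd_mono h2 ha1) h1
  rcases Nat.lt_or_ge A.card 2 with hc | hc
  · right
    obtain ⟨p, hp⟩ := Finset.card_le_one_iff_subset_singleton.1 (Nat.le_of_lt_succ hc)
    rcases Finset.subset_singleton_iff.1 hp with h2 | h2
    · exfalso
      rw [h2] at hsub
      exact not_both α 0 1 (by decide) (hsub 0 (Finset.empty_subset _))
        (hsub 1 (Finset.empty_subset _))
    · exact ⟨p, h2, hsub p hp⟩
  · left
    have h2 : A.card = 2 := le_antisymm hA hc
    refine ⟨h2, ?_⟩
    by_contra hne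
    refine main hN A B hA (Or.inr ⟨h2, ?_⟩) _ _ _ ha1 hb1 h1
    rw [Finset.disjoint_iff_inter_eq_empty]
    by_contra h3
    exact hne (Finset.nonempty_iff_ne_empty.2 h3)

end Pool.Agent.T3B
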