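import Pool.Agent.Lib.T3B.Core2

/-!
# Permutations of the letters, and the theorem for a general pair of sets of letters

(helper14, problem MP_6b13af_al)
-/

set_option autoImplicit false

open scoped Classical

namespace Pool.Agent.T3B

open FreeGroup
open Pool.Agent.T3R

/-- a permutation of the letters -/
def pm (σ : Equiv.Perm (Fin 4)) : F4 →* F4 := FreeGroup.map σ

theorem pm_of (σ : Equiv.Perm (Fin 4)) (i : Fin 4) : pm σ (of i) = of (σ i) := FreeGroup.map.of

theorem pm_pm (σ : Equiv.Perm (Fin 4)) (g : F4) : pm σ (pm σ.symm g) = g := by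
  have h : (pm σ).comp (pm σ.symm) = MonoidHom.id _ := by
    refine FreeGroup.ext_hom _ _ fun i => ?_
    show pm σ (pm σ.symm (of i)) = of i
    rw [pm_of, pm_of, Equiv.apply_symm_apply]
  exact DFunLike.congr_fun h g

theorem pm_surj (σ : Equiv.Perm (Fin 4)) : Function.Surjective (pm σ) :=
  fun g => ⟨pm σ.symm g, pm_pm σ g⟩

theorem pm_inj (σ : Equiv.Perm (Fin 4)) : Function.Injective (pm σ) := by
  intro g h hgh
  have h1 := pm_pm σ.symm g
  have h2 := pm_pm σ.symm h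
  rw [Equiv.symm_symm] at h1 h2
  rw [← h1, ← h2, hgh]

theorem pm_wd (σ : Equiv.Perm (Fin 4)) (S T : Set (Fin 4)) (hST : ∀ i ∈ S, σ i ∈ T) (g : F4)
    (hg : g ∈ Wd S) : pm σ g ∈ Wd T := by
  refine wd_map (pm σ) S (Wd T) (fun i hi => ?_) g hg
  rw [pm_of, Wd]
  exact Subgroup.subset_closure ⟨σ i, hST i hi, rfl⟩

theorem pm_nc (σ : Equiv.Perm (Fin 4)) (N : Subgroup F4) (a b c : F4)
    (h : Subgroup.normalClosure ({a, b, c} : Set F4) = N.comap (pm σ)) :
    Subgroup.normalClosure ({pm σ a, pm σ b, pm σ c} : Set F4) = N := by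
  have h1 := congrArg (Subgroup.map (pm σ)) h
  rw [Subgroup.map_comap_eq_self_of_surjective (pm_surj σ),
    Subgroup.map_normalClosure _ _ (pm_surj σ), Set.image_insert_eq, Set.image_pair] at h1
  exact h1

theorem pm_nc' (σ : Equiv.Perm (Fin 4)) (N : Subgroup F4) (a b c : F4)
    (h : Subgroup.normalClosure ({pm σ a, pm σ b, pm σ c} : Set F4) = N) :
    Subgroup.normalClosure ({a, b, c} : Set F4) = N.comap (pm σ) := by
  have h1 : (pm σ '' ({a, b, c} : Set F4)) = {pm σ a, pm σ b, pm σ c} := by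
    rw [Set.image_insert_eq, Set.image_pair]
  rw [← h, ← h1, ← Subgroup.map_normalClosure _ _ (pm_surj σ),
    Subgroup.comap_map_eq_self_of_injective (pm_inj σ)]

theorem Gd.perm {N : Subgroup F4} (hN : Gd N) (σ : Equiv.Perm (Fin 4)) :
    Gd (N.comap (pm σ)) where
  nor := hN.nor.comap _
  pow s m hm b c h := by
    have h1 := pm_nc σ N _ _ _ h
    rw [map_pow] at h1
    exact hN.pow _ m hm _ _ h1
  two i j hij a b c ha hb h := by
    have h1 := pm_nc σ N _ _ _ h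
    refine hN.two (σ i) (σ j) (fun h => hij (σ.injective h)) _ _ _ ?_ ?_ h1
    · refine pm_wd σ _ _ ?_ a ha
      rintro k (rfl | hk)
      · exact Or.inl rfl
      · exact Or.inr (congrArg σ hk)
    · refine pm_wd σ _ _ ?_ b hb
      rintro k (rfl | hk)
      · exact Or.inl rfl
      · exact Or.inr (congrArg σ hk)
  omt p a b c ha hb hc h := by
    have h1 := pm_nc σ N _ _ _ h
    have h2 : ∀ i ∈ {i | i ≠ p}, σ i ∈ {i | i ≠ σ p} := by
      intro i hi h
      exact hi (σ.injective h)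
    exact hN.omt (σ p) _ _ _ (pm_wd σ _ _ h2 a ha) (pm_wd σ _ _ h2 b hb)
      (pm_wd σ _ _ h2 c hc) h1
  tor := by
    obtain ⟨g, hg, n, hn, hgn⟩ := hN.tor
    obtain ⟨g', rfl⟩ := pm_surj σ g
    refine ⟨g', hg, n, hn, ?_⟩
    show pm σ (g' ^ n) ∈ N
    rw [map_pow]
    exact hgn

theorem perm_exists : ∀ i j p : Fin 4, i ≠ j → p ≠ i → p ≠ j →
    ∃ σ : Equiv.Perm (Fin 4), σ 0 = i ∧ σ 1 = j ∧ σ 3 = p := by decide

theorem exists_other : ∀ i j : Fin 3, i ≠ j → ∃ k : Fin 3, ∀ l : Fin 3, l = i ∨ l = j ∨ l = k := by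
  decide

theorem exists_third : ∀ i j : Fin 4, ∃ p : Fin 4, p ≠ i ∧ p ≠ j := by decide

theorem exists_pair : ∀ (A : Finset (Fin 4)) (p : Fin 4), A.card ≤ 2 → p ∉ A →
    ∃ i j : Fin 4, i ≠ j ∧ A ⊆ {i, j} ∧ p ≠ i ∧ p ≠ j := by decide

theorem wd_mono {S T : Set (Fin 4)} (h : S ⊆ T) : Wd S ≤ Wd T :=
  Subgroup.closure_mono (Set.image_mono h)

theorem main_pair {N : Subgroup F4} (hN : Gd N) (i j : Fin 4) (hij : i ≠ j)
    (B : Finset (Fin 4)) (p : Fin 4) (hpi : p ≠ i) (hpj : p ≠ j) (hpB : p ∉ B) (a b c : F4)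
    (ha : a ∈ Wd ({i, j} : Finset (Fin 4))) (hb : b ∈ Wd B) :
    Subgroup.normalClosure ({a, b, c} : Set F4) ≠ N := by
  intro h
  obtain ⟨σ, h0, h1, h3⟩ := perm_exists i j p hij hpi hpj
  have hba : ∀ k ∈ (B : Set (Fin 4)), σ.symm k ∈ {i : Fin 4 | i ≠ 3} := by
    intro k hk hk3
    rw [Equiv.symm_apply_eq, h3] at hk3
    rw [hk3] at hk
    exact hpB hk
  have haa : ∀ k ∈ ((({i, j} : Finset (Fin 4)) : Finset (Fin 4)) : Set (Fin 4)),
      σ.symm k ∈ ({0, 1} : Set (Fin 4)) := by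
    intro k hk
    rcases Finset.mem_insert.1 hk with rfl | hk
    · left
      rw [Equiv.symm_apply_eq, h0]
    · right
      have hk' := Finset.mem_singleton.1 hk
      show σ.symm k = 1
      rw [Equiv.symm_apply_eq, h1, hk']
  have ha1 := pm_wd σ.symm _ _ haa a ha
  have hb1 := pm_wd σ.symm _ _ hba b hb
  rw [Wd, Set.image_pair] at ha1
  obtain ⟨a', ha'⟩ := exists_iA _ ha1
  obtain ⟨b', hb'⟩ := exists_k3 _ hb1
  refine nest (hN.perm σ) a' b' (pm σ.symm c) (pm_nc' σ N _ _ _ ?_)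
  rw [ha', hb', pm_pm, pm_pm, pm_pm]
  exact h

theorem main_disj {N : Subgroup F4} (hN : Gd N) (i j : Fin 4) (hij : i ≠ j)
    (B : Finset (Fin 4)) (hd : Disjoint ({i, j} : Finset (Fin 4)) B) (a b c : F4)
    (ha : a ∈ Wd ({i, j} : Finset (Fin 4))) (hb : b ∈ Wd B) :
    Subgroup.normalClosure ({a, b, c} : Set F4) ≠ N := by
  intro h
  obtain ⟨p, hpi, hpj⟩ := exists_third i j
  obtain ⟨σ, h0, h1, h3⟩ := perm_exists i j p hij hpi hpj
  have hba : ∀ k ∈ (B : Set (Fin 4)), σ.symm k ∈ ({2, 3} : Set (Fin 4)) := by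
    intro k hk
    have hk' : k ∈ B := hk
    have h4 : k ∉ ({i, j} : Finset (Fin 4)) := fun h5 => (Finset.disjoint_left.1 hd h5) hk'
    obtain ⟨l, rfl⟩ := σ.surjective k
    rw [Equiv.symm_apply_apply]
    fin_cases l
    · exact absurd (by rw [← h0]; exact Finset.mem_insert_self _ _) h4
    · exact absurd (by
        rw [← h1]; exact Finset.mem_insert_of_mem (Finset.mem_singleton_self _)) h4
    · exact Or.inl rfl
    · exact Or.inr rfl
  have haa : ∀ k ∈ ((({i, j} : Finset (Fin 4)) : Finset (Fin 4)) : Set (Fin 4)),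
      σ.symm k ∈ ({0, 1} : Set (Fin 4)) := by
    intro k hk
    rcases Finset.mem_insert.1 hk with rfl | hk
    · left
      rw [Equiv.symm_apply_eq, h0]
    · right
      have hk' := Finset.mem_singleton.1 hk
      show σ.symm k = 1
      rw [Equiv.symm_apply_eq, h1, hk']
  have ha1 := pm_wd σ.symm _ _ haa a ha
  have hb1 := pm_wd σ.symm _ _ hba b hb
  rw [Wd, Set.image_pair] at ha1 hb1
  obtain ⟨a', ha'⟩ := exists_iA _ ha1
  obtain ⟨b', hb'⟩ := exists_iB _ hb1
  refine disj (hN.perm σ) a' b' (pm σ.symm c) (pm_nc' σ N _ _ _ ?_)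
  rw [ha', hb', pm_pm, pm_pm, pm_pm]
  exact h

/-- **The theorem for three normal generators, the first two of which are words in the letters
of `A` and of `B`.** -/
theorem main {N : Subgroup F4} (hN : Gd N) (A B : Finset (Fin 4)) (hA : A.card ≤ 2)
    (hAB : A ∪ B ≠ Finset.univ ∨ (A.card = 2 ∧ Disjoint A B)) (a b c : F4) (ha : a ∈ Wd A)
    (hb : b ∈ Wd B) : Subgroup.normalClosure ({a, b, c} : Set F4) ≠ N := by
  rcases hAB with hu | ⟨h2, hd⟩
  · obtain ⟨p, hp⟩ : ∃ p, p ∉ A ∪ B := by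
      by_contra hne
      push Not at hne
      exact hu (Finset.eq_univ_of_forall hne)
    rw [Finset.mem_union, not_or] at hp
    obtain ⟨hpA, hpB⟩ := hp
    obtain ⟨i, j, hij, hs, hpi, hpj⟩ := exists_pair A p hA hpA
    exact main_pair hN i j hij B p hpi hpj hpB a b c
      (wd_mono (Finset.coe_subset.2 hs) ha) hb
  · obtain ⟨i, j, hij, rfl⟩ := Finset.card_eq_two.1 h2
    exact main_disj hN i j hij B hd a b c ha hb

end Pool.Agent.T3B
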